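import Pool.Agent.Helper89.VE.VRat
import Pool.Agent.Helper29.HP.Main

set_option autoImplicit false

/-!
Project VE: interfaces of the pieces of helper64 (`ve_sim`, `ve_bir`) and helper82 (`ve_section`).
-/

namespace Pool.Agent.Helper89.VE

open MvPolynomial Pool.Agent.Helper29.HP Pool.Agent.Helper16

theorem ve_sim {c : Cub (I6 → ℂ)} (hirr : Irreducible c.disc) {a : Cof} (ha : a.Symm)
    (hdet : (MX a).det = c.disc) (μ : P3) {n : ℕ} (hμ : μ.IsHomogeneous n) (hμδ : ¬ c.disc ∣ μ)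
    (hsp : ∀ π : P3, Irreducible π → π ∣ μ → ∃ g h : P3, ¬ π ∣ h ∧ π ∣ g ^ 2 - c.disc * h ^ 2)
    (i : Fin 4) (j : Fin 3) (s : P3)
    (hi : ¬ c.disc ∣ (c.Nm (X : Fin 3 → P3)).adjugate i i)
    (hj : ¬ c.disc ∣ (MX a).adjugate j j)
    (hs : c.disc ∣ s ^ 2 - μ * (c.Nm (X : Fin 3 → P3)).adjugate i i * (MX a).adjugate j j) :
    (∃ y : Fin 4 → KK, y ≠ 0 ∧ y ⬝ᵥ ((c.Nm (X : Fin 3 → P3)).map psiK).mulVec y = 0) ∨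
    ∃ (Ψ : Matrix (Fin 4) (Fin 4) KK) (ν : KK), ν ≠ 0 ∧ Ψ.det ≠ 0 ∧
      Ψ.transpose * (c.Nm (X : Fin 3 → P3)).map psiK * Ψ = ν • (VX a).map psiK := by
  sorry

theorem ve_bir {c : Cub (I6 → ℂ)} (hP : c.Iso P0) (N' : Matrix (Fin 4) (Fin 4) P3)
    (Ψ : Matrix (Fin 4) (Fin 4) KK) (ν : KK) (hν : ν ≠ 0) (hΨ : Ψ.det ≠ 0)
    (h : Ψ.transpose * (c.Nm (X : Fin 3 → P3)).map psiK * Ψ = ν • N'.map psiK)
    {K : Type} [Field K] [Algebra ℂ K] (x : I6 → K) (hx : c.Gen x) :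
    ∃ (z : Fin 3 → K) (y : Fin 4 → K), z 0 = 1 ∧ y ≠ 0 ∧
      y ⬝ᵥ (N'.map (aeval z)).mulVec y = 0 ∧
      (∀ (L : IntermediateField ℂ K) (σ : K), (∀ i, z i ∈ L) → σ ≠ 0 → (∀ i, σ * y i ∈ L) →
        ∃ τ : K, τ ≠ 0 ∧ ∀ m, τ * x m ∈ L) ∧
      ∃ (D : P3) (n : ℕ), D ≠ 0 ∧ D.IsHomogeneous n ∧
        ∀ (G : MvPolynomial (Fin 3 ⊕ Fin 4) ℂ) (m : ℕ),
          (∀ (R : Type) [CommRing R] [Algebra ℂ R] (z : Fin 3 → R) (t : R) (y : Fin 4 → R),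
            aeval (Sum.elim z (t • y)) G = t ^ m * aeval (Sum.elim z y) G) →
          aeval (Sum.elim z y) G = 0 → ∀ (z' : Fin 3 → ℂ) (y' : Fin 4 → ℂ), z' 0 = 1 →
          eval z' D ≠ 0 → y' ⬝ᵥ (N'.map (aeval z')).mulVec y' = 0 →
          aeval (Sum.elim z' y') G = 0 := by
  sorry

theorem ve_section {a : Cof} (ha : a.Symm) (hirr : Irreducible (NU a).det) (μ : P3) {n : ℕ}
    (hμ : μ.IsHomogeneous n) (hμδ : ¬ (NU a).det ∣ μ)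
    (hsp : ∀ π : P3, Irreducible π → π ∣ μ →
      ∃ g h : P3, ¬ π ∣ h ∧ π ∣ g ^ 2 - (NU a).det * h ^ 2)
    (j : Fin 3) (s : P3) (hj : ¬ (NU a).det ∣ (NU a).adjugate j j)
    (hs : (NU a).det ∣ s ^ 2 - μ * (NU a).adjugate j j) :
    ∃ (d : ℕ) (e : Fin 4 → P3), e ≠ 0 ∧
      (∀ i, (e i).IsHomogeneous (d + (![0, 0, 0, 1] : Fin 4 → ℕ) i)) ∧
      e ⬝ᵥ (VU a).mulVec e = 0 := by
  sorry

end Pool.Agent.Helper89.VE
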